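import Pool.Agent.H37.CNK.Stmts

/-!
# Row HIN of the board `cnk`
-/

set_option autoImplicit false

namespace Pool.CND

open Finset

namespace Hin

section comb

variable {G : Type} [Group G] [Fintype G]

open scoped Classical in
theorem sm_ite (B : G → ℤ) (T : Set G) : sm B T = ∑ g, if g ∈ T then B g else 0 := by
  rw [sm, sum_filter]

theorem sm_nonneg (B : G → ℤ) (T : Set G) (h : ∀ g ∈ T, 0 ≤ B g) : 0 ≤ sm B T := by
  classical
  unfold sm
  exact sum_nonneg fun g hg => h g (mem_filter.1 hg).2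

theorem sm_split (B : G → ℤ) (S T U : Set G) (h : ∀ g, g ∈ U ↔ (g ∈ S ∨ g ∈ T))
    (hd : ∀ g, g ∈ S → g ∉ T) : sm B U = sm B S + sm B T := by
  classical
  rw [sm_ite, sm_ite, sm_ite, ← sum_add_distrib]
  refine sum_congr rfl fun g _ => ?_
  by_cases h1 : g ∈ S
  · rw [if_pos h1, if_neg (hd g h1), if_pos ((h g).2 (Or.inl h1)), add_zero]
  · by_cases h2 : g ∈ T
    · rw [if_neg h1, if_pos h2, if_pos ((h g).2 (Or.inr h2)), zero_add]
    · rw [if_neg h1, if_neg h2, if_neg, zero_add]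
      intro h3
      rcases (h g).1 h3 with h4 | h4
      · exact h1 h4
      · exact h2 h4

open scoped Classical in
theorem sm_quot (M : Subgroup G) [M.Normal] [Fintype (G ⧸ M)] (B : G → ℤ) (B' : G ⧸ M → ℤ)
    (h : ∀ g : G, g ∉ M → sm B {y | g⁻¹ * y ∈ M} = Nat.card M * B' (g : G ⧸ M))
    (T : Set (G ⧸ M)) (hT : (1 : G ⧸ M) ∉ T) :
    sm B {g | (g : G ⧸ M) ∈ T} = Nat.card M * sm B' T := by
  rw [sm_ite B', mul_sum, sm,
    ← sum_fiberwise (univ.filter (fun g : G => g ∈ {g : G | (g : G ⧸ M) ∈ T}))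
      (fun g : G => (g : G ⧸ M)) B]
  refine sum_congr rfl fun q _ => ?_
  by_cases hq : q ∈ T
  · rw [if_pos hq]
    obtain ⟨g, rfl⟩ := QuotientGroup.mk_surjective q
    have hg : g ∉ M := by
      intro hg
      apply hT
      rw [← (QuotientGroup.eq_one_iff g).2 hg]
      exact hq
    rw [← h g hg, sm]
    refine sum_congr ?_ fun _ _ => rfl
    ext y
    simp only [mem_filter, mem_univ, true_and, Set.mem_setOf_eq]
    constructor
    · rintro ⟨_, hy⟩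
      exact QuotientGroup.eq.1 hy.symm
    · intro hy
      have e : (g : G ⧸ M) = (y : G ⧸ M) := QuotientGroup.eq.2 hy
      exact ⟨e ▸ hq, e.symm⟩
  · rw [if_neg hq, mul_zero]
    refine sum_eq_zero fun y hy => ?_
    obtain ⟨h1, h2⟩ := mem_filter.1 hy
    exact absurd (h2 ▸ (mem_filter.1 h1).2) hq

theorem coset_le (B : G → ℤ) (hB : UM B (⊤ : Subgroup G)) (l : ℤ)
    (hl : IsLst B (⊤ : Subgroup G) l) (M : Subgroup G) (v : G) (hv : v ∉ M) :
    sm B {y | v⁻¹ * y ∈ M} ≤ l + sm B {g | g ∈ M ∧ g ≠ 1} := by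
  classical
  obtain ⟨y₀, hy₀, hmax⟩ := exists_max_image (univ.filter (fun y => v⁻¹ * y ∈ M)) B
    ⟨v, mem_filter.2 ⟨mem_univ _, by rw [inv_mul_cancel]; exact M.one_mem⟩⟩
  have hy₀' : v⁻¹ * y₀ ∈ M := (mem_filter.1 hy₀).2
  have hne : ∀ y : G, v⁻¹ * y ∈ M → y ≠ 1 := by
    intro y hy h1
    rw [h1, mul_one] at hy
    exact hv (by simpa using M.inv_mem hy)
  have e1 : sm B {g | g ∈ M ∧ g ≠ 1} =
      ∑ y : G, if y₀⁻¹ * y ∈ M ∧ y₀⁻¹ * y ≠ 1 then B (y₀⁻¹ * y) else 0 := by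
    rw [sm_ite]
    refine (Fintype.sum_equiv (Equiv.mulLeft y₀⁻¹) _ _ fun y => ?_).symm
    by_cases h : y₀⁻¹ * y ∈ M ∧ y₀⁻¹ * y ≠ 1
    · rw [if_pos h, if_pos (show (Equiv.mulLeft y₀⁻¹) y ∈ {g | g ∈ M ∧ g ≠ 1} from h)]
      rfl
    · rw [if_neg h, if_neg (show (Equiv.mulLeft y₀⁻¹) y ∉ {g | g ∈ M ∧ g ≠ 1} from h)]
  have e2 : l = ∑ y : G, if y = y₀ then l else 0 := by
    rw [sum_ite_eq']
    simp
  rw [e1, sm_ite, e2, ← sum_add_distrib]
  refine sum_le_sum fun y _ => ?_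
  by_cases hy : y ∈ {y | v⁻¹ * y ∈ M}
  · have hy' : v⁻¹ * y ∈ M := hy
    rw [if_pos hy]
    by_cases h0 : y = y₀
    · rw [if_pos h0, if_neg (by rw [h0, inv_mul_cancel]; exact fun h => h.2 rfl), add_zero]
      exact hl.le y trivial (hne y hy')
    · have h1 : y₀⁻¹ * y ∈ M := by
        have := M.mul_mem (M.inv_mem hy₀') hy'
        have e : (v⁻¹ * y₀)⁻¹ * (v⁻¹ * y) = y₀⁻¹ * y := by group
        rwa [e] at this
      have h2 : y₀⁻¹ * y ≠ 1 := by
        intro h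
        exact h0 (inv_mul_eq_one.1 h).symm
      rw [if_neg h0, if_pos ⟨h1, h2⟩, zero_add]
      have h3 := hB.mul y₀⁻¹ trivial y trivial (inv_ne_one.2 (hne y₀ hy₀')) (hne y hy') h2
      rw [hB.inv y₀ trivial (hne y₀ hy₀'), min_eq_right (hmax y (mem_filter.2 ⟨mem_univ _, hy'⟩))]
        at h3
      exact h3
  · rw [if_neg hy]
    have h0 : y ≠ y₀ := by
      intro h
      exact hy (by rw [h]; exact hy₀')
    have h1 : y₀⁻¹ * y ∉ M := by
      intro h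
      apply hy
      have := M.mul_mem hy₀' h
      have e : v⁻¹ * y₀ * (y₀⁻¹ * y) = v⁻¹ * y := by group
      rw [e] at this
      exact this
    rw [if_neg h0, if_neg (fun h => h1 h.1), zero_add]

theorem pow_le' (B : G → ℤ) (hB : UM B (⊤ : Subgroup G)) (z : G) (hz : z ≠ 1) :
    ∀ i : ℕ, z ^ i = 1 ∨ B z ≤ B (z ^ i) := by
  intro i
  induction i with
  | zero => left; exact pow_zero z
  | succ i ih =>
    by_cases h1 : z ^ (i + 1) = 1
    · left; exact h1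
    right
    rcases ih with h | h
    · rw [pow_succ, h, one_mul]
    · by_cases h2 : z ^ i = 1
      · rw [pow_succ, h2, one_mul]
      have h3 := hB.mul (z ^ i) trivial z trivial h2 hz (by rw [← pow_succ]; exact h1)
      rw [pow_succ]
      exact (le_min h le_rfl).trans h3

theorem zp_le (B : G → ℤ) (hB : UM B (⊤ : Subgroup G)) (z : G) (p : ℕ) (hz1 : z ≠ 1)
    (hz : orderOf z = p) :
    (p : ℤ) * B z ≤ B z + sm B {q | q ∈ Subgroup.zpowers z ∧ q ≠ 1} := by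
  classical
  have e1 : (p : ℤ) * B z = ∑ q : G, if q ∈ Subgroup.zpowers z then B z else 0 := by
    rw [← sum_filter, sum_const, nsmul_eq_mul]
    have : (univ.filter (fun q => q ∈ Subgroup.zpowers z)).card = p := by
      rw [← hz, ← Nat.card_zpowers, Nat.card_eq_fintype_card, Fintype.card_subtype]
    rw [this]
  have e2 : B z = ∑ q : G, if q = 1 then B z else 0 := by
    rw [sum_ite_eq']
    simp
  rw [e1, sm_ite]
  conv_rhs => rw [e2]
  rw [← sum_add_distrib]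
  refine sum_le_sum fun q _ => ?_
  by_cases h1 : q ∈ Subgroup.zpowers z
  · rw [if_pos h1]
    by_cases h2 : q = 1
    · rw [if_pos h2, if_neg (fun h => h.2 h2), add_zero]
    · rw [if_neg h2, if_pos ⟨h1, h2⟩, zero_add]
      obtain ⟨i, hi⟩ := (mem_powers_iff_mem_zpowers.2 h1 : q ∈ Submonoid.powers z)
      have hi' : z ^ i = q := hi
      rcases pow_le' B hB z hz1 i with h | h
      · exact absurd (hi'.symm.trans h) h2
      · rw [hi'] at h
        exact h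
  · have h2 : q ≠ 1 := by
      intro h
      exact h1 (h ▸ Subgroup.one_mem _)
    rw [if_neg h1, if_neg h2, if_neg (fun h => h1 h.1), add_zero]

theorem exists_lst (B : G → ℤ) (h : ∃ g : G, g ≠ 1) : ∃ l, IsLst B (⊤ : Subgroup G) l := by
  classical
  obtain ⟨g, hg⟩ := h
  obtain ⟨y, hy, hmax⟩ := exists_max_image (univ.filter (fun y : G => y ≠ 1)) B
    ⟨g, mem_filter.2 ⟨mem_univ _, hg⟩⟩
  exact ⟨B y, ⟨y, trivial, (mem_filter.1 hy).2, rfl⟩,
    fun x _ hx => hmax x (mem_filter.2 ⟨mem_univ _, hx⟩)⟩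

end comb

/-- the elements of order dividing `p`, if these are central -/
def Om (p : ℕ) {G : Type} [Group G] (hc : ∀ x : G, x ^ p = 1 → x ∈ Subgroup.center G) :
    Subgroup G where
  carrier := {x | x ^ p = 1}
  one_mem' := one_pow p
  mul_mem' := by
    intro a b ha hb
    have h1 : Commute a b := (Subgroup.mem_center_iff.1 (hc b hb) a)
    show (a * b) ^ p = 1
    rw [h1.mul_pow]
    have ha' : a ^ p = 1 := ha
    have hb' : b ^ p = 1 := hb
    rw [ha', hb', one_mul]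
  inv_mem' := by
    intro a ha
    show a⁻¹ ^ p = 1
    have ha' : a ^ p = 1 := ha
    rw [inv_pow, ha', inv_one]

theorem mem_Om (p : ℕ) {G : Type} [Group G] (hc : ∀ x : G, x ^ p = 1 → x ∈ Subgroup.center G)
    (x : G) : x ∈ Om p hc ↔ x ^ p = 1 := Iff.rfl

end Hin

open Hin

theorem hin_aux (h1 : S_HI1) (h2 : S_QSM) (h3 : S_LPO) (h4 : S_PCG) (h5 : S_PCQ) (h6 : S_BAS) :
    ∀ (n p : ℕ) (k L G : Type) [Field k] [IsAlgClosed k] [Field L] [Algebra k L]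
    [Group G] [Fintype G] (ρ : G →* (L ≃ₐ[k] L)) (t : L) (P : Place k L) (Ω : Subgroup G) (l : ℤ),
    Nat.card G = n → PCv p ρ t P → p ≠ 2 → (∀ x : G, x ^ p = 1 → x ∈ Subgroup.center G) →
    (∀ x : G, x ∈ Ω ↔ x ^ p = 1) → IsLst (fun g => P.b (ρ g)) (⊤ : Subgroup G) l →
    p * So P ρ Ω ≤ l + So P ρ ⊥ := by
  intro n
  induction n using Nat.strong_induction_on with
  | _ n ih =>
  intro p k L G _ _ _ _ _ _ ρ t P Ω l hn hP hp2 hc hΩ hl
  have hum : UM (fun g => P.b (ρ g)) (⊤ : Subgroup G) := (h6 p k L G ρ t P hP).2.2.2.1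
  have hpr := hP.pr
  have hcd := hP.cd
  haveI : Fact p.Prime := ⟨hpr⟩
  have hSo : ∀ M : Subgroup G, 0 ≤ So P ρ M := by
    intro M
    refine sm_nonneg _ _ fun g hg => ?_
    have hg1 : g ≠ 1 := by
      intro h
      exact hg (h ▸ M.one_mem)
    have := hum.pos g trivial hg1
    omega
  obtain ⟨g₀, -, hg₀, hg₀l⟩ := hl.mem
  have hl1 : 1 ≤ l := by
    rw [← hg₀l]
    exact hum.pos g₀ trivial hg₀
  by_cases hT : Ω = ⊤
  · have e0 : So P ρ Ω = 0 := by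
      classical
      rw [So, sm_ite, hT]
      refine sum_eq_zero fun g _ => ?_
      exact if_neg (fun h => h (Subgroup.mem_top g))
    rw [e0, mul_zero]
    have := hSo ⊥
    omega
  -- the quotient by `Ω`
  haveI hΩn : Ω.Normal := by
    refine ⟨fun a ha g => ?_⟩
    have h := Subgroup.mem_center_iff.1 (hc a ((hΩ a).1 ha)) g
    rw [h, mul_inv_cancel_right]
    exact ha
  haveI : Fintype (G ⧸ Ω) := Fintype.ofFinite _
  obtain ⟨E₁, ρ₁, t₁, Q₁, -, -, -, hP₁, -, hS₁⟩ := h2 p k L G ρ t P Ω hP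
  have hc₁ : ∀ x : G ⧸ Ω, x ^ p = 1 → x ∈ Subgroup.center (G ⧸ Ω) := by
    intro x
    obtain ⟨g, rfl⟩ := QuotientGroup.mk_surjective x
    intro hx
    rw [← QuotientGroup.mk_pow, QuotientGroup.eq_one_iff, hΩ] at hx
    rw [Subgroup.mem_center_iff]
    intro y
    obtain ⟨h, rfl⟩ := QuotientGroup.mk_surjective y
    have h7 := (hΩ _).2 (h4 p G hpr hp2 hcd hc g h hx)
    rw [← QuotientGroup.eq_one_iff] at h7
    rw [QuotientGroup.mk_mul, QuotientGroup.mk_mul, QuotientGroup.mk_mul, QuotientGroup.mk_inv,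
      QuotientGroup.mk_inv] at h7
    have h8 := mul_inv_eq_one.1 h7
    have h9 := mul_inv_eq_iff_eq_mul.1 h8
    exact h9.symm
  have hne1 : ∃ x : G ⧸ Ω, x ≠ 1 := by
    by_contra hcon
    push Not at hcon
    apply hT
    rw [eq_top_iff]
    intro g _
    exact (QuotientGroup.eq_one_iff g).1 (hcon _)
  obtain ⟨l₁, hl₁⟩ := exists_lst (fun q => Q₁.b (ρ₁ q)) hne1
  have hcard : Nat.card (G ⧸ Ω) < n := by
    have hb : Ω ≠ ⊥ := by
      obtain ⟨a, ha⟩ := hcd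
      have hdvd : p ∣ Nat.card G := by
        rw [ha]
        refine dvd_pow_self p ?_
        intro h0
        rw [h0, pow_zero] at ha
        haveI := (Nat.card_eq_one_iff_unique.1 ha).1
        exact hg₀ (Subsingleton.elim _ _)
      obtain ⟨y, hy⟩ := exists_prime_orderOf_dvd_card' p hdvd
      intro h
      have hy1 : y ∈ Ω := (hΩ y).2 (by rw [← hy]; exact pow_orderOf_eq_one y)
      rw [h, Subgroup.mem_bot] at hy1
      rw [hy1, orderOf_one] at hy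
      exact hpr.one_lt.ne hy
    have h7 := Subgroup.card_eq_card_quotient_mul_card_subgroup Ω
    have h8 : 1 < Nat.card Ω := Subgroup.one_lt_card_iff_ne_bot Ω |>.2 hb
    rw [hn] at h7
    rw [h7]
    exact lt_mul_of_one_lt_right Nat.card_pos h8
  have hIH := ih _ hcard p k E₁ (G ⧸ Ω) ρ₁ t₁ Q₁ (Om p hc₁) l₁ rfl hP₁ hp2 hc₁
    (mem_Om p hc₁) hl₁
  -- `x`
  obtain ⟨x₁, -, hx₁, hxl⟩ := hl₁.mem
  have hx₁p : x₁ ^ p = 1 := by
    rcases h3 p k E₁ (G ⧸ Ω) ρ₁ t₁ Q₁ hP₁ x₁ hx₁ with h | h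
    · exact h
    · by_contra hne
      have h7 : Q₁.b (ρ₁ (x₁ ^ p)) ≤ l₁ := hl₁.le (x₁ ^ p) trivial hne
      have h8 : Q₁.b (ρ₁ x₁) = l₁ := hxl
      rw [h8] at h
      exact absurd h7 (not_le.2 h)
  obtain ⟨x, rfl⟩ := QuotientGroup.mk_surjective x₁
  have hxΩ : x ∉ Ω := fun h => hx₁ ((QuotientGroup.eq_one_iff x).2 h)
  have hxp : x ^ p ∈ Ω := by
    rw [← QuotientGroup.mk_pow] at hx₁p
    exact (QuotientGroup.eq_one_iff _).1 hx₁p
  have hvp : (x ^ p) ^ p = 1 := (hΩ _).1 hxp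
  have hv1 : x ^ p ≠ 1 := fun h => hxΩ ((hΩ x).2 h)
  obtain ⟨M, hMn, hMp, hvM, hMv⟩ := h5 p G (x ^ p) hpr hp2 hcd hc hvp hv1
  haveI := hMn
  haveI : Fintype (G ⧸ M) := Fintype.ofFinite _
  obtain ⟨E', ρ', t', Q', -, -, -, hP', -, hS'⟩ := h2 p k L G ρ t P M hP
  have hum' : UM (fun g => Q'.b (ρ' g)) (⊤ : Subgroup (G ⧸ M)) :=
    (h6 p k E' (G ⧸ M) ρ' t' Q' hP').2.2.2.1
  have hMΩ : ∀ m ∈ M, m ∈ Ω := fun m hm => (hΩ m).2 (hMp m hm)
  obtain ⟨z, hz⟩ : ∃ z : G ⧸ M, z = ((x ^ p : G) : G ⧸ M) := ⟨_, rfl⟩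
  have hZ : ∀ g : G, (g : G ⧸ M) ∈ Subgroup.zpowers z ↔ g ∈ Ω := by
    intro g
    constructor
    · rintro ⟨i, hi⟩
      have hi' : (((x ^ p) ^ i : G) : G ⧸ M) = (g : G ⧸ M) := by
        rw [← hi, hz]
        rfl
      have h7 := hMΩ _ (QuotientGroup.eq.1 hi')
      have h8 := Ω.mul_mem (Ω.zpow_mem hxp i) h7
      rwa [mul_inv_cancel_left] at h8
    · intro hg
      obtain ⟨i, hi⟩ := hMv g ((hΩ g).1 hg)
      have h7 : ((g * (x ^ p) ^ i : G) : G ⧸ M) = 1 := (QuotientGroup.eq_one_iff _).2 hi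
      have h8 : (g : G ⧸ M) = (z ^ i)⁻¹ := by
        rw [hz]
        exact eq_inv_of_mul_eq_one_left h7
      rw [h8]
      exact Subgroup.inv_mem _ (Subgroup.pow_mem _ (Subgroup.mem_zpowers z) i)
  have hz1 : z ≠ 1 := by
    rw [hz]
    exact fun h => hvM ((QuotientGroup.eq_one_iff _).1 h)
  have hzp : z ^ p = 1 := by
    rw [hz, ← QuotientGroup.mk_pow, hvp]
    rfl
  have hzo : orderOf z = p := orderOf_eq_prime hzp hz1
  have hzc : ∀ g : G ⧸ M, g * z = z * g := by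
    intro g
    obtain ⟨g, rfl⟩ := QuotientGroup.mk_surjective g
    rw [hz, ← QuotientGroup.mk_mul, ← QuotientGroup.mk_mul,
      Subgroup.mem_center_iff.1 (hc _ hvp) g]
  -- the group `{g ^ p ∈ Ω}`
  obtain ⟨RG, hRG⟩ : ∃ RG : Subgroup G, ∀ g : G, g ∈ RG ↔ g ^ p ∈ Ω := by
    refine ⟨(Om p hc₁).comap (QuotientGroup.mk' Ω), fun g => ?_⟩
    rw [Subgroup.mem_comap, mem_Om, QuotientGroup.mk'_apply, ← QuotientGroup.mk_pow,
      QuotientGroup.eq_one_iff]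
  obtain ⟨R', hR'⟩ : ∃ R' : Subgroup (G ⧸ M), ∀ g : G, (g : G ⧸ M) ∈ R' ↔ g ∈ RG := by
    refine ⟨RG.map (QuotientGroup.mk' M), fun g => ?_⟩
    constructor
    · rintro ⟨h, hh, he⟩
      have he' : (h : G ⧸ M) = (g : G ⧸ M) := he
      have h7 := hMΩ _ (QuotientGroup.eq.1 he')
      have h8 : h⁻¹ * g ∈ RG := by
        rw [hRG, (hΩ _).1 h7]
        exact Ω.one_mem
      have h9 := RG.mul_mem hh h8
      rwa [mul_inv_cancel_left] at h9
    · intro hg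
      exact ⟨g, hg, rfl⟩
  -- sums
  have hMpos : (0 : ℤ) < Nat.card M := by exact_mod_cast Nat.card_pos
  have hΩpos : (0 : ℤ) < Nat.card Ω := by exact_mod_cast Nat.card_pos
  have k1 : ∀ g : G, g ∉ Ω → (Nat.card M : ℤ) * sm (fun g => Q'.b (ρ' g))
      {y | (g : G ⧸ M)⁻¹ * y ∈ Subgroup.zpowers z} = Nat.card Ω * Q₁.b (ρ₁ (g : G ⧸ Ω)) := by
    intro g hg
    rw [← hS₁ g hg, ← sm_quot M (fun g => P.b (ρ g)) (fun g => Q'.b (ρ' g)) hS']
    · refine congrArg (sm (fun g => P.b (ρ g))) ?_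
      ext y
      exact hZ (g⁻¹ * y)
    · intro h
      have h7 : (g : G ⧸ M)⁻¹ * 1 ∈ Subgroup.zpowers z := h
      rw [mul_one] at h7
      have h8 := Subgroup.inv_mem _ h7
      rw [inv_inv] at h8
      exact hg ((hZ g).1 h8)
  have k2 : (Nat.card M : ℤ) * So Q' ρ' (Subgroup.zpowers z) = So P ρ Ω := by
    rw [So, So, ← sm_quot M (fun g => P.b (ρ g)) (fun g => Q'.b (ρ' g)) hS']
    · refine congrArg (sm (fun g => P.b (ρ g))) ?_
      ext y
      exact not_congr (hZ y)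
    · exact fun h => h (Subgroup.one_mem _)
  have k3 : (Nat.card M : ℤ) * So Q' ρ' R' = So P ρ RG := by
    rw [So, So, ← sm_quot M (fun g => P.b (ρ g)) (fun g => Q'.b (ρ' g)) hS']
    · refine congrArg (sm (fun g => P.b (ρ g))) ?_
      ext y
      exact not_congr (hR' y)
    · exact fun h => h (Subgroup.one_mem _)
  have k4 : (Nat.card Ω : ℤ) * So Q₁ ρ₁ (Om p hc₁) = So P ρ RG := by
    rw [So, So, ← sm_quot Ω (fun g => P.b (ρ g)) (fun g => Q₁.b (ρ₁ g)) hS₁]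
    · refine congrArg (sm (fun g => P.b (ρ g))) ?_
      ext y
      refine not_congr ?_
      rw [hRG, mem_Om, ← QuotientGroup.mk_pow, QuotientGroup.eq_one_iff]
    · exact fun h => h (Subgroup.one_mem _)
  have k5 : (Nat.card Ω : ℤ) * So Q₁ ρ₁ ⊥ = So P ρ Ω := by
    rw [So, So, ← sm_quot Ω (fun g => P.b (ρ g)) (fun g => Q₁.b (ρ₁ g)) hS₁]
    · refine congrArg (sm (fun g => P.b (ρ g))) ?_
      ext y
      refine not_congr ?_
      rw [Subgroup.mem_bot, QuotientGroup.eq_one_iff]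
    · exact fun h => h (Subgroup.one_mem _)
  have hxl' : Q₁.b (ρ₁ (x : G ⧸ Ω)) = l₁ := hxl
  have kx : (Nat.card M : ℤ) * sm (fun g => Q'.b (ρ' g))
      {y | (x : G ⧸ M)⁻¹ * y ∈ Subgroup.zpowers z} = Nat.card Ω * l₁ := by
    rw [k1 x hxΩ, hxl']
  -- the step
  have hstep := h1 p k E' (G ⧸ M) ρ' t' Q' z (x : G ⧸ M) R' hP' hp2 hzo hzc
    (by rw [hz, ← QuotientGroup.mk_pow])
    (by
      intro a g
      obtain ⟨a, rfl⟩ := QuotientGroup.mk_surjective a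
      obtain ⟨g, rfl⟩ := QuotientGroup.mk_surjective g
      intro ha
      rw [← QuotientGroup.mk_pow, hZ, hΩ] at ha
      have h7 := (hΩ _).2 (h4 p G hpr hp2 hcd hc a g ha)
      have h8 := Ω.inv_mem h7
      have e : (a * g * a⁻¹ * g⁻¹)⁻¹ = g * a * g⁻¹ * a⁻¹ := by group
      rw [e] at h8
      exact (hZ (g * a * g⁻¹ * a⁻¹)).2 h8)
    (by
      intro a
      obtain ⟨a, rfl⟩ := QuotientGroup.mk_surjective a
      rw [hR', hRG, ← QuotientGroup.mk_pow, hZ])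
    (by
      intro g
      obtain ⟨g, rfl⟩ := QuotientGroup.mk_surjective g
      intro hg
      have hg' : g ∉ Ω := fun h => hg ((hZ g).2 h)
      refine le_of_mul_le_mul_left ?_ hMpos
      rw [k1 g hg', kx]
      refine mul_le_mul_of_nonneg_left ?_ hΩpos.le
      exact hl₁.le (g : G ⧸ Ω) trivial (fun h => hg' ((QuotientGroup.eq_one_iff g).1 h)))
    (by
      refine le_of_mul_le_mul_left ?_ hMpos
      have h7 := mul_le_mul_of_nonneg_left hIH hΩpos.le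
      rw [mul_add, kx, k2]
      have e : (Nat.card M : ℤ) * (p * So Q' ρ' R') = p * So P ρ RG := by
        rw [← k3]
        ring
      rw [e]
      have e' : (Nat.card Ω : ℤ) * (p * So Q₁ ρ₁ (Om p hc₁)) = p * So P ρ RG := by
        rw [← k4]
        ring
      rw [e', mul_add, k5] at h7
      exact h7)
  -- the end
  have hnn : 0 ≤ sm (fun g => Q'.b (ρ' g)) {y | (x : G ⧸ M)⁻¹ * y ∈ Subgroup.zpowers z} := by
    refine sm_nonneg _ _ fun g hg => ?_
    have hg1 : g ≠ 1 := by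
      intro h
      have h7 : (x : G ⧸ M)⁻¹ * g ∈ Subgroup.zpowers z := hg
      rw [h, mul_one] at h7
      have h8 := Subgroup.inv_mem _ h7
      rw [inv_inv] at h8
      exact hxΩ ((hZ x).1 h8)
    have := hum'.pos g trivial hg1
    exact zero_le_one.trans this
  have hppos : (0 : ℤ) < p := by exact_mod_cast hpr.pos
  have h10 : (p : ℤ) * So P ρ Ω ≤ p * (Nat.card M * Q'.b (ρ' z)) + So P ρ Ω := by
    have h7 := mul_le_mul_of_nonneg_left hstep hMpos.le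
    have h8 : 0 ≤ (p : ℤ) * (Nat.card M * sm (fun g => Q'.b (ρ' g))
      {y | (x : G ⧸ M)⁻¹ * y ∈ Subgroup.zpowers z}) :=
      mul_nonneg hppos.le (mul_nonneg hMpos.le hnn)
    rw [← k2]
    nlinarith [h7, h8]
  have h11 : (Nat.card M : ℤ) * Q'.b (ρ' z) ≤ l + sm (fun g => P.b (ρ g)) {g | g ∈ M ∧ g ≠ 1} := by
    rw [hz, ← hS' (x ^ p) hvM]
    exact coset_le _ hum l hl M _ hvM
  have h12 : (p : ℤ) * (Nat.card M * Q'.b (ρ' z)) ≤ Nat.card M * Q'.b (ρ' z) +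
      sm (fun g => P.b (ρ g)) {g | g ∈ Ω ∧ g ∉ M} := by
    have h7 := zp_le (fun g => Q'.b (ρ' g)) hum' z p hz1 hzo
    have h8 := mul_le_mul_of_nonneg_left h7 hMpos.le
    have h9 : (Nat.card M : ℤ) * sm (fun g => Q'.b (ρ' g)) {q | q ∈ Subgroup.zpowers z ∧ q ≠ 1} =
        sm (fun g => P.b (ρ g)) {g | g ∈ Ω ∧ g ∉ M} := by
      rw [← sm_quot M (fun g => P.b (ρ g)) (fun g => Q'.b (ρ' g)) hS']
      · refine congrArg (sm (fun g => P.b (ρ g))) ?_
        ext y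
        refine and_congr (hZ y) (not_congr ?_)
        exact QuotientGroup.eq_one_iff y
      · exact fun h => h.2 rfl
    rw [mul_add, h9] at h8
    nlinarith [h8]
  have h13 : So P ρ ⊥ = So P ρ Ω + (sm (fun g => P.b (ρ g)) {g | g ∈ Ω ∧ g ∉ M} +
      sm (fun g => P.b (ρ g)) {g | g ∈ M ∧ g ≠ 1}) := by
    rw [So, So, sm_split (fun g => P.b (ρ g)) {g | g ∉ Ω} {g | g ∈ Ω ∧ g ≠ 1} {g | g ∉ (⊥ : Subgroup G)},
      sm_split (fun g => P.b (ρ g)) {g | g ∈ Ω ∧ g ∉ M} {g | g ∈ M ∧ g ≠ 1} {g | g ∈ Ω ∧ g ≠ 1}]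
    · intro g
      constructor
      · rintro ⟨h7, h8⟩
        by_cases h9 : g ∈ M
        · exact Or.inr ⟨h9, h8⟩
        · exact Or.inl ⟨h7, h9⟩
      · rintro (⟨h7, h8⟩ | ⟨h7, h8⟩)
        · exact ⟨h7, fun h => h8 (h ▸ M.one_mem)⟩
        · exact ⟨hMΩ g h7, h8⟩
    · rintro g ⟨_, h8⟩ ⟨h9, _⟩
      exact h8 h9
    · intro g
      constructor
      · intro h7
        have h8 : g ≠ 1 := fun h => h7 (Subgroup.mem_bot.2 h)
        by_cases h9 : g ∈ Ω
        · exact Or.inr ⟨h9, h8⟩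
        · exact Or.inl h9
      · rintro (h7 | ⟨_, h8⟩)
        · exact fun h => h7 (by rw [Subgroup.mem_bot.1 h]; exact Ω.one_mem)
        · exact fun h => h8 (Subgroup.mem_bot.1 h)
    · rintro g h8 ⟨h9, _⟩
      exact h8 h9
  linarith [h10, h11, h12, h13]

theorem hin_thm (h1 : S_HI1) (h2 : S_QSM) (h3 : S_LPO) (h4 : S_PCG) (h5 : S_PCQ) (h6 : S_BAS) :
    S_HIN := by
  intro p k L G _ _ _ _ _ _ ρ t P Ω l hP hp2 hc hΩ hl
  exact hin_aux h1 h2 h3 h4 h5 h6 _ p k L G ρ t P Ω l rfl hP hp2 hc hΩ hl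

end Pool.CND
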